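import Mathlib

open UpperHalfPlane MeasureTheory

namespace Pool.Agent.Results.MP_9ed947_gt.NoLargerConstant

/-- `S 0, ..., S (k-1)` are the (non-empty, pairwise disjoint) pieces of a partition of `X`. -/
def IsPartitionOf {ι : Type} (S : ι → Set ℍ) (X : Set ℍ) : Prop :=
  (∀ i, (S i).Nonempty) ∧ Pairwise (fun i j => Disjoint (S i) (S j)) ∧ ⋃ i, S i = X

/-- A paradoxical decomposition of `X ⊆ ℍ` with measurable pieces: two partitions
`A 0, ..., A (m-1)` and `B 0, ..., B (n-1)` of `X` into sets measurable for the hyperbolic area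
measure, and isometries `ρ i`, `σ j` of `ℍ` such that the sets `ρ i (A i)` and `σ j (B j)` together
form a partition of `X` again. -/
structure MeasurableParadox (X : Set ℍ) where
  /-- the number of pieces of the first partition -/
  m : ℕ
  /-- the number of pieces of the second partition -/
  n : ℕ
  one_le_m : 1 ≤ m
  one_le_n : 1 ≤ n
  /-- the first family of isometries -/
  ρ : Fin m → (ℍ ≃ᵢ ℍ)
  /-- the second family of isometries -/
  σ : Fin n → (ℍ ≃ᵢ ℍ)
  /-- the first partition -/
  A : Fin m → Set ℍ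
  /-- the second partition -/
  B : Fin n → Set ℍ
  measurable_A : ∀ i, NullMeasurableSet (A i) volume
  measurable_B : ∀ j, NullMeasurableSet (B j) volume
  partition_A : IsPartitionOf A X
  partition_B : IsPartitionOf B X
  partition_images : IsPartitionOf
    (Sum.elim (fun i => ρ i '' A i) (fun j => σ j '' B j) : Fin m ⊕ Fin n → Set ℍ) X

/-- The isometry `g` is used in the decomposition. -/
def MeasurableParadox.Uses {X : Set ℍ} (D : MeasurableParadox X) (g : ℍ ≃ᵢ ℍ) : Prop :=
  (∃ i, D.ρ i = g) ∨ (∃ j, D.σ j = g)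

/-- Property `(∗_c)`: for every measurable `X` with a paradoxical decomposition with measurable
pieces, either `X` has area `0`, or every point `P` is moved by at least `c` by some isometry used
in the decomposition. -/
def Star (c : ℝ) : Prop :=
  ∀ X : Set ℍ, NullMeasurableSet X volume → ∀ D : MeasurableParadox X,
    volume X = 0 ∨ ∀ P : ℍ, ∃ g : ℍ ≃ᵢ ℍ, D.Uses g ∧ c ≤ dist P (g P)

/-- The vertical strip `0 ≤ Re z < 1`. -/
def strip : Set ℍ := {z | 0 ≤ z.re ∧ z.re < 1}

/-- The isometry `z ↦ z / 2`. -/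
noncomputable def half : ℍ ≃ᵢ ℍ :=
  ⟨MulAction.toPerm (⟨1 / 2, by norm_num⟩ : {x : ℝ // 0 < x}), isometry_pos_mul _⟩

/-- The isometry `z ↦ z + 1 / 2`. -/
noncomputable def shift : ℍ ≃ᵢ ℍ :=
  ⟨AddAction.toPerm (1 / 2 : ℝ), isometry_real_vadd _⟩

/-- The isometry `z ↦ z / 2 + 1 / 2`. -/
noncomputable def halfShift : ℍ ≃ᵢ ℍ := half.trans shift

lemma half_re (z : ℍ) : (half z).re = z.re / 2 := by
  change ((⟨1 / 2, by norm_num⟩ : {x : ℝ // 0 < x}) • z).re = _
  rw [UpperHalfPlane.pos_real_re]
  ring

lemma half_im (z : ℍ) : (half z).im = z.im / 2 := by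
  change ((⟨1 / 2, by norm_num⟩ : {x : ℝ // 0 < x}) • z).im = _
  rw [UpperHalfPlane.pos_real_im]
  ring

lemma halfShift_re (z : ℍ) : (halfShift z).re = z.re / 2 + 1 / 2 := by
  change ((1 / 2 : ℝ) +ᵥ (half z)).re = _
  rw [UpperHalfPlane.vadd_re, half_re]
  ring

lemma halfShift_im (z : ℍ) : (halfShift z).im = z.im / 2 := by
  change ((1 / 2 : ℝ) +ᵥ (half z)).im = _
  rw [UpperHalfPlane.vadd_im, half_im]

lemma half_image : half '' strip = {z | 0 ≤ z.re ∧ z.re < 1 / 2} := by
  ext w
  constructor
  · rintro ⟨z, ⟨h0, h1⟩, rfl⟩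
    rw [Set.mem_ofPred_eq, half_re]
    constructor <;> linarith
  · rintro ⟨h0, h1⟩
    refine ⟨half.symm w, ?_, half.apply_symm_apply w⟩
    have h := half_re (half.symm w)
    rw [half.apply_symm_apply] at h
    constructor <;> linarith

lemma halfShift_image : halfShift '' strip = {z | 1 / 2 ≤ z.re ∧ z.re < 1} := by
  ext w
  constructor
  · rintro ⟨z, ⟨h0, h1⟩, rfl⟩
    rw [Set.mem_ofPred_eq, halfShift_re]
    constructor <;> linarith
  · rintro ⟨h0, h1⟩
    refine ⟨halfShift.symm w, ?_, halfShift.apply_symm_apply w⟩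
    have h := halfShift_re (halfShift.symm w)
    rw [halfShift.apply_symm_apply] at h
    constructor <;> linarith

lemma measurableSet_strip : MeasurableSet strip := by
  have h : Measurable (fun z : ℍ => z.re) :=
    Complex.measurable_re.comp UpperHalfPlane.measurable_coe
  exact (measurableSet_le measurable_const h).inter (measurableSet_lt h measurable_const)

lemma strip_nonempty : strip.Nonempty :=
  ⟨⟨⟨1 / 2, 1⟩, by norm_num⟩, by
    constructor
    · change (0 : ℝ) ≤ 1 / 2
      norm_num
    · change (1 / 2 : ℝ) < 1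
      norm_num⟩

lemma volume_strip_pos : 0 < (volume : Measure ℍ) strip := by
  rw [UpperHalfPlane.volume_eq_lintegral]
  have hm : Measurable (fun z : ℂ => (((1 / ‖z.im‖₊) ^ 2 : NNReal) : ENNReal)) := by
    fun_prop
  rw [setLIntegral_pos_iff hm]
  have hsub : Metric.ball (⟨1 / 2, 1⟩ : ℂ) (1 / 4) ⊆
      (Function.support fun z : ℂ => (((1 / ‖z.im‖₊) ^ 2 : NNReal) : ENNReal)) ∩
        ((↑) : ℍ → ℂ) '' strip := by
    intro z hz
    rw [Metric.mem_ball, Complex.dist_eq] at hz
    have h1 := (Complex.abs_re_le_norm (z - ⟨1 / 2, 1⟩)).trans_lt hz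
    have h2 := (Complex.abs_im_le_norm (z - ⟨1 / 2, 1⟩)).trans_lt hz
    simp only [Complex.sub_re, Complex.sub_im] at h1 h2
    rw [abs_lt] at h1 h2
    have him : 0 < z.im := by linarith [h2.1]
    refine ⟨?_, ⟨⟨z, him⟩, ⟨?_, ?_⟩, rfl⟩⟩
    · rw [Function.mem_support]
      simp [him.ne']
    · change 0 ≤ z.re
      linarith [h1.1]
    · change z.re < 1
      linarith [h1.2]
  exact (Metric.measure_ball_pos volume _ (by norm_num)).trans_le (measure_mono hsub)

/-- The decomposition `strip = half(strip) ⊔ halfShift(strip)`, with one piece on either side. -/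
noncomputable def stripParadox : MeasurableParadox strip where
  m := 1
  n := 1
  one_le_m := le_rfl
  one_le_n := le_rfl
  ρ := fun _ => half
  σ := fun _ => halfShift
  A := fun _ => strip
  B := fun _ => strip
  measurable_A := fun _ => measurableSet_strip.nullMeasurableSet
  measurable_B := fun _ => measurableSet_strip.nullMeasurableSet
  partition_A := ⟨fun _ => strip_nonempty, fun i j h => (h (Subsingleton.elim i j)).elim,
    Set.iUnion_const _⟩
  partition_B := ⟨fun _ => strip_nonempty, fun i j h => (h (Subsingleton.elim i j)).elim,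
    Set.iUnion_const _⟩
  partition_images := by
    have hdisj : Disjoint (half '' strip) (halfShift '' strip) := by
      rw [half_image, halfShift_image, Set.disjoint_left]
      rintro z ⟨_, h1⟩ ⟨h2, _⟩
      linarith
    refine ⟨?_, ?_, ?_⟩
    · rintro (i | j)
      · exact strip_nonempty.image _
      · exact strip_nonempty.image _
    · rintro (i | i) (j | j) hij
      · exact (hij (congrArg Sum.inl (Subsingleton.elim i j))).elim
      · exact hdisj
      · exact hdisj.symm
      · exact (hij (congrArg Sum.inr (Subsingleton.elim i j))).elim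
    · rw [Set.iUnion_sum]
      simp only [Sum.elim_inl, Sum.elim_inr, Set.iUnion_const]
      rw [half_image, halfShift_image]
      ext z
      simp only [Set.mem_union, Set.mem_ofPred_eq, strip]
      constructor
      · rintro (⟨h0, h1⟩ | ⟨h0, h1⟩) <;> constructor <;> linarith
      · rintro ⟨h0, h1⟩
        rcases lt_or_ge z.re (1 / 2) with h | h
        · exact Or.inl ⟨h0, h⟩
        · exact Or.inr ⟨h, h1⟩

/-- **Answer to Sherman's question.** There is no constant `c > ln 2` with property `(∗_c)`. -/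
theorem result : ¬ ∃ c : ℝ, Real.log 2 < c ∧ Star c := by
  rintro ⟨c, hc, hstar⟩
  rcases hstar strip measurableSet_strip.nullMeasurableSet stripParadox with h0 | hP
  · exact volume_strip_pos.ne' h0
  have hlog : 0 < Real.log 2 := Real.log_pos (by norm_num)
  have hcosh : Real.cosh (Real.log 2) = 5 / 4 := by
    rw [Real.cosh_eq, Real.exp_neg, Real.exp_log (by norm_num)]
    norm_num
  have hlt : 5 / 4 < Real.cosh c := by
    rw [← hcosh, Real.cosh_lt_cosh, abs_of_pos hlog, abs_of_pos (hlog.trans hc)]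
    exact hc
  set δ := Real.cosh c - 5 / 4 with hδ
  have hδ0 : 0 < δ := by linarith
  set t : ℝ := max 1 (1 / δ) with ht
  have ht1 : 1 ≤ t := le_max_left _ _
  have ht2 : 1 / δ ≤ t := le_max_right _ _
  have ht0 : 0 < t := by linarith
  set P : ℍ := ⟨⟨0, t⟩, ht0⟩ with hPdef
  have hPre : P.re = 0 := rfl
  have hPim : P.im = t := rfl
  have hsq : ∀ z w : ℍ, dist (z : ℂ) (w : ℂ) ^ 2 = (z.re - w.re) ^ 2 + (z.im - w.im) ^ 2 := by
    intro z w
    rw [Complex.dist_eq, ← Complex.normSq_eq_norm_sq, Complex.normSq_apply]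
    simp only [Complex.sub_re, Complex.sub_im, UpperHalfPlane.coe_re, UpperHalfPlane.coe_im]
    ring
  have key : ∀ g : ℍ ≃ᵢ ℍ, Real.cosh (dist P (g P)) < Real.cosh c → dist P (g P) < c := by
    intro g hg
    rw [Real.cosh_lt_cosh, abs_of_nonneg dist_nonneg, abs_of_pos (hlog.trans hc)] at hg
    exact hg
  obtain ⟨g, hg, hgc⟩ := hP P
  rcases hg with ⟨i, hi⟩ | ⟨j, hj⟩
  · have hg' : half = g := hi
    subst hg'
    refine absurd hgc (not_le.2 (key _ ?_))
    rw [UpperHalfPlane.cosh_dist, hsq, half_re, half_im, hPre, hPim]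
    have : 1 + (((0 : ℝ) - 0 / 2) ^ 2 + (t - t / 2) ^ 2) / (2 * t * (t / 2)) = 5 / 4 := by
      field_simp
      ring
    rw [this]
    exact hlt
  · have hg' : halfShift = g := hj
    subst hg'
    refine absurd hgc (not_le.2 (key _ ?_))
    rw [UpperHalfPlane.cosh_dist, hsq, halfShift_re, halfShift_im, hPre, hPim]
    have h1 : 1 + (((0 : ℝ) - (0 / 2 + 1 / 2)) ^ 2 + (t - t / 2) ^ 2) / (2 * t * (t / 2))
        = 5 / 4 + 1 / (4 * t ^ 2) := by
      field_simp
      ring
    rw [h1]
    have h2 : 1 / (4 * t ^ 2) < δ := by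
      rw [div_lt_iff₀ (by positivity)]
      rw [div_le_iff₀ hδ0] at ht2
      nlinarith
    linarith

end Pool.Agent.Results.MP_9ed947_gt.NoLargerConstant
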